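import Pool.Agent.W785.FD.Stms

/-!
FD-CLOSE: closing lemma, the Newtonian representative as limit superior of means.
-/

set_option autoImplicit false

open MeasureTheory Metric Set Filter
open scoped ENNReal NNReal Topology

namespace Pool.Agent.W540.FD.Close

open Pool.Agent.W785.FD

theorem sub_rpow {a b : ℝ≥0∞} {p : ℝ} (hp : 1 ≤ p) : (a - b) ^ p ≤ a ^ p - b ^ p := by
  rcases eq_or_ne b ∞ with hb | hb
  · simp [hb, ENNReal.zero_rpow_of_pos (by linarith : 0 < p)]
  · rcases le_total a b with hab | hab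
    · rw [tsub_eq_zero_of_le hab, ENNReal.zero_rpow_of_pos (by linarith)]
      exact zero_le
    · apply ENNReal.le_sub_of_add_le_right (ENNReal.rpow_ne_top_of_nonneg (by linarith) hb)
      have := ENNReal.add_rpow_le_rpow_add (a - b) b hp
      rwa [tsub_add_cancel_of_le hab] at this

theorem H_rpow {A B : ℝ≥0∞} {p : ℝ} (hp : 1 ≤ p) :
    ((A ^ (1 / p) - B) + (B - A ^ (1 / p))) ^ p ≤ (A - B ^ p) + (B ^ p - A) := by
  have hA : (A ^ (1 / p)) ^ p = A := by
    rw [← ENNReal.rpow_mul, one_div, inv_mul_cancel₀ (by linarith : p ≠ 0), ENNReal.rpow_one]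
  rcases le_total (A ^ (1 / p)) B with h | h
  · rw [tsub_eq_zero_of_le h, zero_add]
    have := sub_rpow (a := B) (b := A ^ (1 / p)) hp
    rw [hA] at this
    exact this.trans le_add_self
  · rw [tsub_eq_zero_of_le h, add_zero]
    have := sub_rpow (a := A ^ (1 / p)) (b := B) hp
    rw [hA] at this
    exact this.trans le_self_add

theorem geo : ∑' k : ℕ, ((2 : ℝ≥0∞)⁻¹) ^ k = 2 := by
  rw [ENNReal.tsum_geometric, ENNReal.one_sub_inv_two, inv_inv]

theorem tsum_rpow (x : ℕ → ℝ≥0∞) {p : ℝ} (hp : 1 ≤ p) :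
    (∑' k, x k) ^ p ≤ 2 ^ p * ∑' k, ((2 : ℝ≥0∞) ^ k) ^ p * x k ^ p := by
  have hp0 : 0 < p := by linarith
  obtain ⟨S, hS⟩ : ∃ S, S = ∑' k, ((2 : ℝ≥0∞) ^ k) ^ p * x k ^ p := ⟨_, rfl⟩
  have h1 : ∀ k, x k ≤ S ^ (1 / p) * ((2 : ℝ≥0∞)⁻¹) ^ k := by
    intro k
    have h2 : ((2 : ℝ≥0∞) ^ k * x k) ^ p ≤ S := by
      rw [ENNReal.mul_rpow_of_nonneg _ _ hp0.le, hS]
      exact ENNReal.le_tsum k
    have h3 : (2 : ℝ≥0∞) ^ k * x k ≤ S ^ (1 / p) := by
      rw [one_div, ENNReal.le_rpow_inv_iff hp0]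
      exact h2
    have h4 : ((2 : ℝ≥0∞)⁻¹) ^ k * ((2 : ℝ≥0∞) ^ k * x k) = x k := by
      rw [← mul_assoc, ← mul_pow, ENNReal.inv_mul_cancel (by norm_num) (by norm_num), one_pow,
        one_mul]
    calc x k = ((2 : ℝ≥0∞)⁻¹) ^ k * ((2 : ℝ≥0∞) ^ k * x k) := h4.symm
      _ ≤ ((2 : ℝ≥0∞)⁻¹) ^ k * S ^ (1 / p) := by gcongr
      _ = _ := mul_comm _ _
  have h5 : ∑' k, x k ≤ S ^ (1 / p) * 2 := by
    refine (ENNReal.tsum_le_tsum h1).trans ?_
    rw [ENNReal.tsum_mul_left, geo]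
  calc (∑' k, x k) ^ p ≤ (S ^ (1 / p) * 2) ^ p := ENNReal.rpow_le_rpow h5 hp0.le
    _ = 2 ^ p * S := by
      rw [ENNReal.mul_rpow_of_nonneg _ _ hp0.le, ← ENNReal.rpow_mul, one_div,
        inv_mul_cancel₀ hp0.ne', ENNReal.rpow_one, mul_comm]
    _ = _ := by rw [hS]

universe u
variable {X : Type u} [MetricSpace X] [MeasurableSpace X]

theorem lav_meas [SecondCountableTopology X] [BorelSpace X] (μ : Measure X) [SFinite μ]
    {f : X → ℝ≥0∞} (hf : Measurable f) (s : ℝ) : Measurable (fun z => lav μ f z s) := by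
  have hO : MeasurableSet {q : X × X | dist q.2 q.1 < s} :=
    (isOpen_lt (continuous_snd.dist continuous_fst) continuous_const).measurableSet
  have key : ∀ F : X → ℝ≥0∞, Measurable F → Measurable (fun z => ∫⁻ y in ball z s, F y ∂μ) := by
    intro F hF
    have h : Measurable ({q : X × X | dist q.2 q.1 < s}.indicator (fun q => F q.2)) :=
      (hF.comp measurable_snd).indicator hO
    have h2 := h.lintegral_prod_right' (ν := μ)
    have e : (fun z => ∫⁻ y in ball z s, F y ∂μ) = fun z => ∫⁻ y,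
        ({q : X × X | dist q.2 q.1 < s}.indicator (fun q => F q.2)) (z, y) ∂μ := by
      funext z
      rw [← lintegral_indicator measurableSet_ball]
      rfl
    rw [e]
    exact h2
  have h1 := key f hf
  have h2 := key 1 measurable_one
  have h3 : (fun z => ∫⁻ y in ball z s, (1 : X → ℝ≥0∞) y ∂μ) = fun z => μ (ball z s) := by
    funext z
    simp
  rw [h3] at h2
  exact h1.div h2

theorem lav_congr {μ : Measure X} {f g : X → ℝ≥0∞} (h : f =ᵐ[μ] g) (x : X) (r : ℝ) :
    lav μ f x r = lav μ g x r := by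
  unfold lav
  rw [lintegral_congr_ae (ae_restrict_of_ae h)]

theorem lav_le_one {μ : Measure X} {f : X → ℝ≥0∞} (h : ∀ y, f y ≤ 1) (x : X) (r : ℝ) :
    lav μ f x r ≤ 1 := by
  unfold lav
  have h1 : ∫⁻ y in ball x r, f y ∂μ ≤ μ (ball x r) := by
    refine (lintegral_mono h).trans ?_
    simp
  exact (ENNReal.div_le_div_right h1 _).trans ENNReal.div_self_le_one

theorem lav_const {μ : Measure X} {D : ℝ} (hD : Dbl μ D) (c : ℝ≥0∞) (x : X) {r : ℝ} (hr : 0 < r) :
    lav μ (fun _ => c) x r = c := by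
  unfold lav
  rw [lintegral_const, Measure.restrict_apply MeasurableSet.univ, univ_inter,
    ENNReal.mul_div_cancel_right (hD.pos x r hr).ne' (hD.fin x r).ne]

theorem lav_add {μ : Measure X} {f g : X → ℝ≥0∞} (hf : AEMeasurable f μ) (x : X) (r : ℝ) :
    lav μ (fun y => f y + g y) x r = lav μ f x r + lav μ g x r := by
  unfold lav
  rw [lintegral_add_left' hf.restrict, ENNReal.add_div]

theorem lav_mono {μ : Measure X} {f g : X → ℝ≥0∞} (h : ∀ y, f y ≤ g y) (x : X) (r : ℝ) :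
    lav μ f x r ≤ lav μ g x r := by
  unfold lav
  exact ENNReal.div_le_div_right (lintegral_mono h) _

theorem LI_of_bdd [BorelSpace X] {μ : Measure X} {D : ℝ} (hD : Dbl μ D) {v : X → ℝ}
    (hv : AEMeasurable v μ) (h0 : ∀ y, 0 ≤ v y) (h1 : ∀ y, v y ≤ 1) : LI μ v := by
  intro x r
  apply Measure.integrableOn_of_bounded (hD.fin x r).ne hv.aestronglyMeasurable (M := 1)
  exact Eventually.of_forall fun y => by
    rw [Real.norm_eq_abs, abs_of_nonneg (h0 y)]
    exact h1 y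

theorem ofReal_mean {μ : Measure X} {v : X → ℝ} (hL : LI μ v) (h0 : ∀ y, 0 ≤ v y) (x : X) (r : ℝ) :
    ENNReal.ofReal (mean μ v x r) = lav μ (fun y => ENNReal.ofReal (v y)) x r := by
  unfold mean lav
  exact ofReal_setAverage (hL x r) (Eventually.of_forall h0)

theorem mean_nonneg {μ : Measure X} {v : X → ℝ} (h0 : ∀ y, 0 ≤ v y) (x : X) (r : ℝ) :
    0 ≤ mean μ v x r := by
  unfold mean
  rw [setAverage_eq]
  exact smul_nonneg (inv_nonneg.2 measureReal_nonneg) (integral_nonneg h0)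

/-- Convergence of the means at Lebesgue points. -/
theorem tendsto_lav {μ : Measure X} {D : ℝ} (hD : Dbl μ D) {v : X → ℝ} (hv : AEMeasurable v μ)
    (h0 : ∀ y, 0 ≤ v y) (x : X)
    (h : Tendsto (fun r => lav μ (fun y => ENNReal.ofReal |v y - v x|) x r) (𝓝[>] 0) (𝓝 0)) :
    Tendsto (fun r => lav μ (fun y => ENNReal.ofReal (v y)) x r) (𝓝[>] 0)
      (𝓝 (ENNReal.ofReal (v x))) := by
  have hV : AEMeasurable (fun y => ENNReal.ofReal (v y)) μ := hv.ennreal_ofReal
  have up : ∀ r, 0 < r → lav μ (fun y => ENNReal.ofReal (v y)) x r ≤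
      ENNReal.ofReal (v x) + lav μ (fun y => ENNReal.ofReal |v y - v x|) x r := by
    intro r hr
    have e1 : lav μ (fun y => ENNReal.ofReal (v x) + ENNReal.ofReal |v y - v x|) x r =
        ENNReal.ofReal (v x) + lav μ (fun y => ENNReal.ofReal |v y - v x|) x r := by
      rw [lav_add aemeasurable_const, lav_const hD _ _ hr]
    rw [← e1]
    apply lav_mono
    intro y
    rw [← ENNReal.ofReal_add (h0 x) (abs_nonneg _)]
    apply ENNReal.ofReal_le_ofReal
    have := le_abs_self (v y - v x)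
    linarith
  have low : ∀ r, 0 < r → ENNReal.ofReal (v x) -
      lav μ (fun y => ENNReal.ofReal |v y - v x|) x r ≤
      lav μ (fun y => ENNReal.ofReal (v y)) x r := by
    intro r hr
    rw [tsub_le_iff_right]
    have e1 : ENNReal.ofReal (v x) = lav μ (fun _ => ENNReal.ofReal (v x)) x r :=
      (lav_const hD _ _ hr).symm
    rw [← lav_add hV]
    nth_rewrite 1 [e1]
    apply lav_mono
    intro y
    rw [← ENNReal.ofReal_add (h0 y) (abs_nonneg _)]
    apply ENNReal.ofReal_le_ofReal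
    have := neg_abs_le (v y - v x)
    linarith
  have t1 : Tendsto (fun r => ENNReal.ofReal (v x) +
      lav μ (fun y => ENNReal.ofReal |v y - v x|) x r) (𝓝[>] 0) (𝓝 (ENNReal.ofReal (v x) + 0)) :=
    tendsto_const_nhds.add h
  have t2 : Tendsto (fun r => ENNReal.ofReal (v x) -
      lav μ (fun y => ENNReal.ofReal |v y - v x|) x r) (𝓝[>] 0) (𝓝 (ENNReal.ofReal (v x) - 0)) :=
    ENNReal.Tendsto.sub tendsto_const_nhds h (Or.inl ENNReal.ofReal_ne_top)
  rw [add_zero] at t1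
  rw [tsub_zero] at t2
  refine tendsto_of_tendsto_of_tendsto_of_le_of_le' t2 t1 ?_ ?_
  · filter_upwards [self_mem_nhdsWithin] with r hr
    exact low r hr
  · filter_upwards [self_mem_nhdsWithin] with r hr
    exact up r hr

/-- Comparison of limits superior. -/
theorem limsup_add {a b E : ℕ → ℝ≥0∞} {C : ℝ≥0∞} (h1 : ∀ᶠ k in atTop, a k ≤ b k + (C + E k))
    (hE : Tendsto E atTop (𝓝 0)) (hb : limsup b atTop ≠ ∞) :
    limsup a atTop ≤ limsup b atTop + C := by
  apply ENNReal.le_of_forall_pos_le_add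
  intro ε hε _
  have hε2 : (0 : ℝ≥0∞) < (ε : ℝ≥0∞) / 2 := by
    apply ENNReal.div_pos _ (by norm_num)
    exact_mod_cast hε.ne'
  have e1 : ∀ᶠ k in atTop, b k < limsup b atTop + (ε : ℝ≥0∞) / 2 :=
    eventually_lt_of_limsup_lt (ENNReal.lt_add_right hb hε2.ne')
  have e2 : ∀ᶠ k in atTop, E k < (ε : ℝ≥0∞) / 2 := hE.eventually_lt_const hε2
  apply limsup_le_of_le
  · isBoundedDefault
  · filter_upwards [h1, e1, e2] with k k1 k2 k3
    calc a k ≤ b k + (C + E k) := k1
      _ ≤ (limsup b atTop + (ε : ℝ≥0∞) / 2) + (C + (ε : ℝ≥0∞) / 2) := by gcongr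
      _ = limsup b atTop + C + ((ε : ℝ≥0∞) / 2 + (ε : ℝ≥0∞) / 2) := by ring
      _ = _ := by rw [ENNReal.add_halves]

theorem abs_toReal {A B C : ℝ≥0∞} (hA : A ≤ 1) (hB : B ≤ 1) (h1 : A ≤ B + C) (h2 : B ≤ A + C) :
    ENNReal.ofReal |A.toReal - B.toReal| ≤ C := by
  have hA' : A ≠ ∞ := ne_top_of_le_ne_top ENNReal.one_ne_top hA
  have hB' : B ≠ ∞ := ne_top_of_le_ne_top ENNReal.one_ne_top hB
  rcases le_total B.toReal A.toReal with h | h
  · rw [abs_of_nonneg (by linarith), ENNReal.ofReal_sub _ ENNReal.toReal_nonneg,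
      ENNReal.ofReal_toReal hA', ENNReal.ofReal_toReal hB']
    exact tsub_le_iff_left.2 h1
  · rw [abs_of_nonpos (by linarith), neg_sub, ENNReal.ofReal_sub _ ENNReal.toReal_nonneg,
      ENNReal.ofReal_toReal hA', ENNReal.ofReal_toReal hB']
    exact tsub_le_iff_left.2 h2

theorem ofReal_le_add {a b : ℝ} : ENNReal.ofReal a ≤ ENNReal.ofReal b + ENNReal.ofReal |a - b| := by
  have h : a ≤ b + |a - b| := by
    have := le_abs_self (a - b)
    linarith
  exact (ENNReal.ofReal_le_ofReal h).trans ENNReal.ofReal_add_le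

theorem main {X : Type*} [MetricSpace X] [ProperSpace X] [MeasurableSpace X] [BorelSpace X]
    (μ : Measure X) (p D : ℝ) (hp : 1 < p) (hD : Dbl μ D) (h1 : S_AVG μ) (h2 : S_CHAIN μ p)
    (h3 : S_LD μ) : S_CLOSE μ p := by
  intro K Λ hK hΛ
  obtain ⟨K', hK', hch⟩ := h2 K Λ hK hΛ
  refine ⟨K', hK', ?_⟩
  intro v g hv h0 hv1 hg hgp hPP
  have hLoc : IsLocallyFiniteMeasure μ :=
    ⟨fun x => ⟨ball x 1, ball_mem_nhds x one_pos, hD.fin x 1⟩⟩
  have hp0 : 0 < p := by linarith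
  obtain ⟨f, hfd⟩ : ∃ f : X → ℝ≥0∞, f = fun y => g y ^ p := ⟨_, rfl⟩
  have hf : Measurable f := by
    rw [hfd]
    exact hg.pow_const p
  have hff : ∫⁻ x, f x ∂μ < ∞ := by
    rw [hfd]
    exact hgp
  obtain ⟨c0, hc0⟩ : ∃ c0 : ℝ, c0 = 2 * Λ + 2 := ⟨_, rfl⟩
  have hc0p : 0 < c0 := by linarith
  have hLI := LI_of_bdd hD hv h0 hv1
  have hA := h1 f hf hff
  have hex : ∀ k : ℕ, ∃ ρ : ℝ, 0 < ρ ∧ ρ ≤ (1 / 2) ^ k ∧
      ∫⁻ z, ((lav μ f z (c0 * ρ) - f z) + (f z - lav μ f z (c0 * ρ))) ∂μ ≤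
        (((2 : ℝ≥0∞) ^ k) ^ p)⁻¹ * ((2 : ℝ≥0∞)⁻¹) ^ k := by
    intro k
    have hpos : (0 : ℝ≥0∞) < (((2 : ℝ≥0∞) ^ k) ^ p)⁻¹ * ((2 : ℝ≥0∞)⁻¹) ^ k := by
      apply ENNReal.mul_pos
      · rw [ENNReal.inv_ne_zero]
        exact ENNReal.rpow_ne_top_of_nonneg hp0.le (ENNReal.pow_ne_top (by norm_num))
      · exact (ENNReal.pow_pos (by simp) k).ne'
    have e1 := hA.eventually_lt_const hpos
    have e2 : ∀ᶠ s in 𝓝[>] (0 : ℝ), s < c0 * (1 / 2) ^ k :=
      nhdsWithin_le_nhds (Iio_mem_nhds (by positivity))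
    obtain ⟨s, hs1, hs2, hs3⟩ := (e1.and (e2.and self_mem_nhdsWithin)).exists
    have hs3' : 0 < s := hs3
    refine ⟨s / c0, by positivity, ?_, ?_⟩
    · rw [div_le_iff₀ hc0p]
      linarith
    · rw [mul_div_cancel₀ s hc0p.ne']
      exact hs1.le
  choose ρ hρ0 hρ1 hρ2 using hex
  have hρt : Tendsto ρ atTop (𝓝 0) := by
    refine squeeze_zero (fun k => (hρ0 k).le) hρ1 ?_
    exact tendsto_pow_atTop_nhds_zero_of_lt_one (by norm_num) (by norm_num)
  have hρt' : Tendsto ρ atTop (𝓝[>] 0) :=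
    tendsto_nhdsWithin_iff.2 ⟨hρt, Eventually.of_forall hρ0⟩
  obtain ⟨G, hG⟩ : ∃ G : ℕ → X → ℝ≥0∞, G = fun k z => (lav μ f z (c0 * ρ k)) ^ (1 / p) := ⟨_, rfl⟩
  obtain ⟨H, hH⟩ : ∃ H : ℕ → X → ℝ≥0∞, H = fun k z => (G k z - g z) + (g z - G k z) := ⟨_, rfl⟩
  have hGm : ∀ k, Measurable (G k) := by
    intro k
    rw [hG]
    exact (lav_meas μ hf _).pow_const _
  have hHm : ∀ k, Measurable (H k) := by
    intro k
    rw [hH]
    exact ((hGm k).sub hg).add (hg.sub (hGm k))
  have hHint : ∀ k, ((2 : ℝ≥0∞) ^ k) ^ p * ∫⁻ z, H k z ^ p ∂μ ≤ ((2 : ℝ≥0∞)⁻¹) ^ k := by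
    intro k
    have e1 : ∫⁻ z, H k z ^ p ∂μ ≤ (((2 : ℝ≥0∞) ^ k) ^ p)⁻¹ * ((2 : ℝ≥0∞)⁻¹) ^ k := by
      refine le_trans (lintegral_mono fun z => ?_) (hρ2 k)
      rw [hH, hG, hfd]
      exact H_rpow hp.le
    have e2 : ((2 : ℝ≥0∞) ^ k) ^ p ≠ 0 :=
      (ENNReal.rpow_pos (ENNReal.pow_pos (by simp) k) (ENNReal.pow_ne_top (by norm_num))).ne'
    have e3 : ((2 : ℝ≥0∞) ^ k) ^ p ≠ ∞ :=
      ENNReal.rpow_ne_top_of_nonneg hp0.le (ENNReal.pow_ne_top (by norm_num))
    calc ((2 : ℝ≥0∞) ^ k) ^ p * ∫⁻ z, H k z ^ p ∂μ ≤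
        ((2 : ℝ≥0∞) ^ k) ^ p * ((((2 : ℝ≥0∞) ^ k) ^ p)⁻¹ * ((2 : ℝ≥0∞)⁻¹) ^ k) := by gcongr
      _ = ((2 : ℝ≥0∞)⁻¹) ^ k := by
        rw [← mul_assoc, ENNReal.mul_inv_cancel e2 e3, one_mul]
  obtain ⟨h, hh⟩ : ∃ h : X → ℝ≥0∞, h = fun z => ∑' k, H k z := ⟨_, rfl⟩
  have hhm : Measurable h := by
    rw [hh]
    exact Measurable.tsum hHm
  have hhint : ∫⁻ x, h x ^ p ∂μ < ∞ := by
    have e1 : ∫⁻ x, h x ^ p ∂μ ≤ ∫⁻ x, 2 ^ p * ∑' k, ((2 : ℝ≥0∞) ^ k) ^ p * H k x ^ p ∂μ := by
      refine lintegral_mono fun x => ?_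
      rw [hh]
      exact tsum_rpow _ hp.le
    have hm : ∀ k, Measurable fun x => ((2 : ℝ≥0∞) ^ k) ^ p * H k x ^ p := fun k =>
      ((hHm k).pow_const p).const_mul _
    have e2 : ∫⁻ x, 2 ^ p * ∑' k, ((2 : ℝ≥0∞) ^ k) ^ p * H k x ^ p ∂μ =
        2 ^ p * ∑' k, ((2 : ℝ≥0∞) ^ k) ^ p * ∫⁻ x, H k x ^ p ∂μ := by
      rw [lintegral_const_mul _ (Measurable.tsum hm), lintegral_tsum fun k =>
        (hm k).aemeasurable]
      congr 1
      refine tsum_congr fun k => ?_
      rw [lintegral_const_mul _ ((hHm k).pow_const p)]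
    rw [e2] at e1
    refine lt_of_le_of_lt e1 ?_
    have e3 : ∑' k, ((2 : ℝ≥0∞) ^ k) ^ p * ∫⁻ x, H k x ^ p ∂μ ≤ 2 := by
      refine (ENNReal.tsum_le_tsum hHint).trans ?_
      rw [geo]
    refine lt_of_le_of_lt (mul_le_mul_right e3 _) ?_
    exact ENNReal.mul_lt_top (ENNReal.rpow_lt_top_of_nonneg hp0.le (by norm_num)) (by norm_num)
  -- the function `w`
  obtain ⟨M, hM⟩ : ∃ M : ℕ → X → ℝ≥0∞, M = fun k y => ENNReal.ofReal (mean μ v y (ρ k)) :=
    ⟨_, rfl⟩
  have hMlav : ∀ k y, M k y = lav μ (fun y => ENNReal.ofReal (v y)) y (ρ k) := by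
    intro k y
    rw [hM]
    exact ofReal_mean hLI h0 y (ρ k)
  have hMm : ∀ k, Measurable (M k) := by
    intro k
    have e1 : M k = fun y => lav μ (fun y => ENNReal.ofReal (hv.mk v y)) y (ρ k) := by
      funext y
      rw [hMlav]
      apply lav_congr
      filter_upwards [hv.ae_eq_mk] with z hz
      rw [hz]
    rw [e1]
    exact lav_meas μ (hv.measurable_mk.ennreal_ofReal) _
  have hM1 : ∀ k y, M k y ≤ 1 := by
    intro k y
    rw [hMlav]
    apply lav_le_one
    intro z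
    exact ENNReal.ofReal_le_one.2 (hv1 z)
  obtain ⟨W, hW⟩ : ∃ W : X → ℝ≥0∞, W = fun y => limsup (fun k => M k y) atTop := ⟨_, rfl⟩
  have hWm : Measurable W := by
    rw [hW]
    exact Measurable.limsup hMm
  have hW1 : ∀ y, W y ≤ 1 := by
    intro y
    rw [hW]
    exact limsup_le_of_le (by isBoundedDefault) (Eventually.of_forall fun k => hM1 k y)
  refine ⟨fun y => (W y).toReal, hWm.ennreal_toReal, fun y => ENNReal.toReal_nonneg, ?_, ?_,
    ⟨hg.const_mul _, h, hhm, hhint, ?_⟩, ?_⟩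
  · intro y
    have := ENNReal.toReal_mono ENNReal.one_ne_top (hW1 y)
    simpa using this
  · filter_upwards [h3 v hLI] with x hx
    have e1 := (tendsto_lav hD hv h0 x hx).comp hρt'
    have e2 : Tendsto (fun k => M k x) atTop (𝓝 (ENNReal.ofReal (v x))) := by
      refine e1.congr fun k => ?_
      rw [hMlav]
      rfl
    have e3 : W x = ENNReal.ofReal (v x) := by
      rw [hW]
      exact e2.limsup_eq
    show (W x).toReal = v x
    rw [e3, ENNReal.toReal_ofReal (h0 x)]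
  · intro c
    by_cases hc : c.int h = ∞
    · exact Or.inr hc
    · left
      have hcm : Measurable c.γ := c.lip.continuous.measurable
      have hHc : ∀ k, Measurable fun t => H k (c.γ t) := fun k => (hHm k).comp hcm
      have hgc : Measurable fun t => g (c.γ t) := hg.comp hcm
      have hint : c.int (fun z => ENNReal.ofReal K' * g z) = ENNReal.ofReal K' * c.int g := by
        unfold Crv.int
        exact lintegral_const_mul _ (hg.comp hcm)
      unfold CrvIneq
      rw [hint]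
      rcases c.nonneg.eq_or_lt with hl | hl
      · simp [← hl]
      · have hsum : ∑' k, c.int (H k) = c.int h := by
          unfold Crv.int
          rw [hh]
          exact (lintegral_tsum fun k => (hHc k).aemeasurable).symm
        have hE : Tendsto (fun k => ENNReal.ofReal K' * c.int (H k)) atTop (𝓝 0) := by
          have e1 : Tendsto (fun k => c.int (H k)) atTop (𝓝 0) :=
            ENNReal.tendsto_atTop_zero_of_tsum_ne_top (by rw [hsum]; exact hc)
          have e2 := ENNReal.Tendsto.const_mul (a := ENNReal.ofReal K') e1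
            (Or.inr ENNReal.ofReal_ne_top)
          rwa [mul_zero] at e2
        have hev : ∀ᶠ k in atTop, ENNReal.ofReal |mean μ v (c.γ 0) (ρ k) -
            mean μ v (c.γ c.l) (ρ k)| ≤ ENNReal.ofReal K' * c.int g +
              ENNReal.ofReal K' * c.int (H k) := by
          filter_upwards [hρt.eventually_le_const hl] with k hk
          have e1 := hch v g hLI hg hPP (ρ k) (hρ0 k) c hk
          refine e1.trans ?_
          rw [← mul_add]
          have e2 : c.int (fun z => (lav μ (fun y => g y ^ p) z ((2 * Λ + 2) * ρ k)) ^ (1 / p)) ≤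
              c.int g + c.int (H k) := by
            unfold Crv.int
            rw [← lintegral_add_left hgc]
            refine lintegral_mono fun t => ?_
            have e3 : G k (c.γ t) ≤ g (c.γ t) + H k (c.γ t) := by
              have e4 : G k (c.γ t) ≤ g (c.γ t) + (G k (c.γ t) - g (c.γ t)) := le_add_tsub
              have e5 : G k (c.γ t) - g (c.γ t) ≤ H k (c.γ t) := by
                rw [hH]
                exact le_self_add
              exact e4.trans (by gcongr)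
            rw [hG, hfd, hc0] at e3
            exact e3
          gcongr
        have hfin : ∀ y, limsup (fun k => M k y) atTop ≠ ∞ := by
          intro y
          have := hW1 y
          rw [hW] at this
          exact ne_top_of_le_ne_top ENNReal.one_ne_top this
        have l1 : limsup (fun k => M k (c.γ 0)) atTop ≤
            limsup (fun k => M k (c.γ c.l)) atTop + ENNReal.ofReal K' * c.int g := by
          refine limsup_add (E := fun k => ENNReal.ofReal K' * c.int (H k)) ?_ hE (hfin _)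
          filter_upwards [hev] with k hk
          rw [hM]
          exact ofReal_le_add.trans (by gcongr)
        have l2 : limsup (fun k => M k (c.γ c.l)) atTop ≤
            limsup (fun k => M k (c.γ 0)) atTop + ENNReal.ofReal K' * c.int g := by
          refine limsup_add (E := fun k => ENNReal.ofReal K' * c.int (H k)) ?_ hE (hfin _)
          filter_upwards [hev] with k hk
          rw [hM]
          rw [abs_sub_comm] at hk
          exact ofReal_le_add.trans (by gcongr)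
        refine abs_toReal (hW1 _) (hW1 _) ?_ ?_
        · rw [hW]
          exact l1
        · rw [hW]
          exact l2
  · intro y hy
    have e1 : Tendsto (fun k => M k y) atTop (𝓝 0) := by
      have e2 := (ENNReal.continuous_ofReal.tendsto 0).comp (hy.comp hρt')
      rw [ENNReal.ofReal_zero] at e2
      rw [hM]
      exact e2
    have e3 : W y = 0 := by
      rw [hW]
      exact e1.limsup_eq
    show (W y).toReal = 0
    rw [e3, ENNReal.toReal_zero]

end Pool.Agent.W540.FD.Close
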